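import Mathlib

/-!
# Translation-invariant linear forms on C_E(T): Sidon near 0 suffices

Let E be a set of integers and U a basic neighbourhood of 0 for the Bohr topology,
U = {k : the distance of k a to the nearest integer is less than delta for each a in a finite set}.
If the part of E inside U is a Sidon set then every translation-invariant linear form on C_E(T)
is continuous. The odd integers are not Sidon but miss such a neighbourhood, so the suggestion
that the property characterises Sidon sets is false.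

Outline. A quadratic B-spline concentrated near 0 on the circle has Fourier coefficients p_m of
size 1/m^3, and A f = sum of p_m f_(ma) maps C_E into C_(E cap U), commutes with translations and
satisfies f - A f = B f - (B f)_a. So a form is determined by its restriction to C_(E cap U).
For a Sidon set each mean zero f is a sum of two differences g - g_a, with a, b chosen at random.
-/
open scoped Real
open Complex

namespace Pool.Agent.Results.MP_eb9c50_an.SidonNearZero

theorem bern3 (x : ℝ) : bernoulliFun 3 x = x ^ 3 - 3 / 2 * x ^ 2 + x / 2 := by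
  have h3 : bernoulli 3 = 0 := bernoulli_eq_zero_of_odd (by decide) (by norm_num)
  simp [bernoulliFun, Polynomial.bernoulli_def, Finset.sum_range_succ, h3]
  norm_num [Nat.choose]
  ring

/-- the sum s(u) = sum over m of e(m u) / m^3 -/
theorem ser (u : ℝ) (hu : u ∈ Set.Icc (0 : ℝ) 1) :
    HasSum (fun n : ℤ => 1 / (n : ℂ) ^ 3 * fourier n (u : UnitAddCircle))
      (-(2 * π * I) ^ 3 / 6 * ((u ^ 3 - 3 / 2 * u ^ 2 + u / 2 : ℝ) : ℂ)) := by
  have h := hasSum_one_div_pow_mul_fourier_mul_bernoulliFun (k := 3) (by norm_num) hu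
  rw [bern3] at h
  have h6 : ((Nat.factorial 3 : ℕ) : ℂ) = 6 := by norm_num [Nat.factorial]
  rw [h6] at h
  exact h

theorem HasSum.congr_val {ι : Type} {f g : ι → ℂ} {a b : ℂ} (h1 : ∀ i, g i = f i) (h2 : b = a)
    (h : HasSum f a) : HasSum g b := by
  have : g = f := funext h1
  rw [this, h2]; exact h

theorem fourier_arg_add (n : ℤ) (x y : UnitAddCircle) :
    fourier n (x + y) = fourier n x * fourier n y := by
  simp [fourier_apply, smul_add, AddCircle.toCircle_add]

/-- coefficients of the localised kernel -/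
noncomputable def pk (η : ℝ) (m : ℤ) : ℂ :=
  (if m = 0 then ((4 * η / 3 : ℝ) : ℂ) else 0)
    - (9 / 2 * η ^ 2 * (-(2 * π * I) ^ 3 / 6))⁻¹ * (1 / (m : ℂ) ^ 3 *
      (fourier m ((3 * η / 2 : ℝ) : UnitAddCircle) - 3 * fourier m ((η / 2 : ℝ) : UnitAddCircle)
      + 3 * fourier m ((-(η / 2) : ℝ) : UnitAddCircle)
      - fourier m ((-(3 * η / 2) : ℝ) : UnitAddCircle)))

theorem c_ne : (-(2 * π * I) ^ 3 / 6 : ℂ) ≠ 0 := by
  have : (π : ℂ) ≠ 0 := by exact_mod_cast Real.pi_ne_zero
  have h2 : (2 * π * I : ℂ) ≠ 0 := by simp [this]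
  exact div_ne_zero (neg_ne_zero.mpr (pow_ne_zero 3 h2)) (by norm_num)

/-- value of the kernel at x in terms of four points in [0,1] -/
theorem pk_sum (η : ℝ) (x : UnitAddCircle) (u0 u1 u2 u3 : ℝ)
    (h0 : u0 ∈ Set.Icc (0 : ℝ) 1) (h1 : u1 ∈ Set.Icc (0 : ℝ) 1)
    (h2 : u2 ∈ Set.Icc (0 : ℝ) 1) (h3 : u3 ∈ Set.Icc (0 : ℝ) 1)
    (e0 : x + ((3 * η / 2 : ℝ) : UnitAddCircle) = (u0 : UnitAddCircle))
    (e1 : x + ((η / 2 : ℝ) : UnitAddCircle) = (u1 : UnitAddCircle))
    (e2 : x + ((-(η / 2) : ℝ) : UnitAddCircle) = (u2 : UnitAddCircle))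
    (e3 : x + ((-(3 * η / 2) : ℝ) : UnitAddCircle) = (u3 : UnitAddCircle)) :
    HasSum (fun m : ℤ => pk η m * fourier m x)
      (((4 * η / 3 : ℝ) : ℂ) - (9 / 2 * η ^ 2 * (-(2 * π * I) ^ 3 / 6))⁻¹ *
        (-(2 * π * I) ^ 3 / 6) * (((u0 ^ 3 - 3 / 2 * u0 ^ 2 + u0 / 2)
          - 3 * (u1 ^ 3 - 3 / 2 * u1 ^ 2 + u1 / 2) + 3 * (u2 ^ 3 - 3 / 2 * u2 ^ 2 + u2 / 2)
          - (u3 ^ 3 - 3 / 2 * u3 ^ 2 + u3 / 2) : ℝ) : ℂ)) := by
  have s0 := ser u0 h0
  have s1 := ser u1 h1
  have s2 := ser u2 h2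
  have s3 := ser u3 h3
  have hz : HasSum (fun m : ℤ => (if m = 0 then ((4 * η / 3 : ℝ) : ℂ) else 0))
      ((4 * η / 3 : ℝ) : ℂ) := by
    exact hasSum_ite_eq (0 : ℤ) ((4 * η / 3 : ℝ) : ℂ)
  have hs := ((((s0.sub (s1.mul_left 3)).add (s2.mul_left 3)).sub s3).mul_left
    ((9 / 2 * η ^ 2 * (-(2 * π * I) ^ 3 / 6) : ℂ)⁻¹))
  have := hz.sub hs
  refine HasSum.congr_val ?_ ?_ this
  · intro m
    rw [← e0, ← e1, ← e2, ← e3]
    simp only [fourier_arg_add, pk]
    by_cases hm : m = 0
    · subst hm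
      simp
    · simp only [hm, if_false]
      ring
  · push_cast
    ring

theorem pk_one (η : ℝ) (h0 : 0 < η) (h1 : η ≤ 1 / 8) : HasSum (pk η) 1 := by
  have key := pk_sum η 0 (3 * η / 2) (η / 2) (1 - η / 2) (1 - 3 * η / 2)
    ⟨by linarith, by linarith⟩ ⟨by linarith, by linarith⟩ ⟨by linarith, by linarith⟩
    ⟨by linarith, by linarith⟩ (by simp) (by simp)
    (by
      have : ((1 - η / 2 : ℝ) : UnitAddCircle) = ((-(η / 2) : ℝ) : UnitAddCircle) := by
        rw [sub_eq_add_neg, add_comm, AddCircle.coe_add_period]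
      rw [this, zero_add])
    (by
      have : ((1 - 3 * η / 2 : ℝ) : UnitAddCircle) = ((-(3 * η / 2) : ℝ) : UnitAddCircle) := by
        rw [sub_eq_add_neg, add_comm, AddCircle.coe_add_period]
      rw [this, zero_add])
  have hη : (η : ℂ) ≠ 0 := by exact_mod_cast h0.ne'
  refine HasSum.congr_val ?_ ?_ key
  · intro m; simp
  · have hc := c_ne
    rw [mul_inv, mul_assoc _ _ (-(2 * π * I) ^ 3 / 6 : ℂ), inv_mul_cancel₀ hc, mul_one]
    push_cast
    field_simp
    ring

theorem pk_zero (η : ℝ) (h0 : 0 < η) (h1 : η ≤ 1 / 8) (x : UnitAddCircle) (hx : 2 * η ≤ ‖x‖) :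
    HasSum (fun m => pk η m * fourier m x) 0 := by
  obtain ⟨y, hy, rfl⟩ : ∃ y ∈ Set.Ico (0 : ℝ) 1, (y : UnitAddCircle) = x := by
    have := AddCircle.coe_image_Ico_eq (p := (1 : ℝ)) 0
    have hx : x ∈ ((↑) : ℝ → UnitAddCircle) '' Set.Ico (0 : ℝ) (0 + 1) := by
      rw [this]; trivial
    rw [zero_add] at hx
    obtain ⟨y, hy, rfl⟩ := hx
    exact ⟨y, hy, rfl⟩
  have hb : 2 * η ≤ y ∧ y ≤ 1 - 2 * η := by
    rw [UnitAddCircle.norm_eq] at hx
    constructor
    · by_contra hlt
      push Not at hlt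
      have hr : round y = 0 := by
        rw [round_eq_zero_iff]
        constructor <;> linarith [hy.1]
      rw [hr] at hx
      simp only [Int.cast_zero, sub_zero, abs_of_nonneg hy.1] at hx
      linarith
    · by_contra hlt
      push Not at hlt
      have hr : round y = 1 := by
        rw [round_eq, Int.floor_eq_iff]
        constructor
        · push_cast; linarith
        · push_cast; linarith [hy.2]
      rw [hr] at hx
      have : |y - ((1 : ℤ) : ℝ)| = 1 - y := by
        rw [abs_sub_comm, abs_of_nonneg]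
        · simp
        · simp; linarith [hy.2]
      rw [this] at hx
      linarith
  have key := pk_sum η y (y + 3 * η / 2) (y + η / 2) (y - η / 2) (y - 3 * η / 2)
    ⟨by linarith, by linarith⟩ ⟨by linarith, by linarith⟩ ⟨by linarith, by linarith⟩
    ⟨by linarith, by linarith⟩ (by rw [← AddCircle.coe_add]) (by rw [← AddCircle.coe_add])
    (by rw [← AddCircle.coe_add, sub_eq_add_neg]) (by rw [← AddCircle.coe_add, sub_eq_add_neg])
  have hη : (η : ℂ) ≠ 0 := by exact_mod_cast h0.ne'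
  refine HasSum.congr_val (fun m => rfl) ?_ key
  · have hc := c_ne
    rw [mul_inv, mul_assoc _ _ (-(2 * π * I) ^ 3 / 6 : ℂ), inv_mul_cancel₀ hc, mul_one]
    push_cast
    field_simp
    ring

theorem pk_bound (η : ℝ) : ∃ C : ℝ, ∀ m : ℤ, |(m : ℝ)| * ‖pk η m‖ ≤ C * (1 / (m : ℝ) ^ 2) := by
  set K : ℂ := (9 / 2 * η ^ 2 * (-(2 * π * I) ^ 3 / 6))⁻¹ with hK
  refine ⟨‖K‖ * 8, fun m => ?_⟩
  by_cases hm : m = 0
  · subst hm; simp
  have hm' : (m : ℝ) ≠ 0 := by exact_mod_cast hm
  have hf : ∀ y : UnitAddCircle, ‖(fourier m y : ℂ)‖ = 1 := by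
    intro y; rw [fourier_apply]; exact Circle.norm_coe _
  have h1 : ‖pk η m‖ ≤ ‖K‖ * (1 / |(m : ℝ)| ^ 3 * 8) := by
    unfold pk
    rw [if_neg hm, zero_sub, norm_neg, norm_mul, norm_mul]
    have h2 : ‖(1 / (m : ℂ) ^ 3)‖ = 1 / |(m : ℝ)| ^ 3 := by
      rw [norm_div, norm_pow, norm_one]
      congr 2
      rw [← Complex.ofReal_intCast, Complex.norm_real, Real.norm_eq_abs]
    rw [h2]
    gcongr
    set A := (fourier m ((3 * η / 2 : ℝ) : UnitAddCircle) : ℂ) with hA
    set B := (fourier m ((η / 2 : ℝ) : UnitAddCircle) : ℂ) with hB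
    set D := (fourier m ((-(η / 2) : ℝ) : UnitAddCircle) : ℂ) with hD
    set E := (fourier m ((-(3 * η / 2) : ℝ) : UnitAddCircle) : ℂ) with hE
    have nA : ‖A‖ = 1 := hf _
    have nB : ‖B‖ = 1 := hf _
    have nD : ‖D‖ = 1 := hf _
    have nE : ‖E‖ = 1 := hf _
    calc ‖A - 3 * B + 3 * D - E‖ ≤ ‖A - 3 * B + 3 * D‖ + ‖E‖ := norm_sub_le _ _
      _ ≤ (‖A - 3 * B‖ + ‖3 * D‖) + ‖E‖ := by gcongr; exact norm_add_le _ _
      _ ≤ ((‖A‖ + ‖3 * B‖) + ‖3 * D‖) + ‖E‖ := by gcongr; exact norm_sub_le _ _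
      _ = 8 := by
        rw [norm_mul, norm_mul, nA, nB, nD, nE]; norm_num
  calc |(m : ℝ)| * ‖pk η m‖ ≤ |(m : ℝ)| * (‖K‖ * (1 / |(m : ℝ)| ^ 3 * 8)) := by gcongr
    _ = ‖K‖ * 8 * (1 / (m : ℝ) ^ 2) := by
      have : |(m : ℝ)| ≠ 0 := abs_ne_zero.mpr hm'
      rw [← sq_abs (m : ℝ)]
      field_simp

theorem pk_summable (η : ℝ) : Summable (fun m : ℤ => |(m : ℝ)| * ‖pk η m‖) := by
  obtain ⟨C, hC⟩ := pk_bound η
  have h2 : Summable (fun m : ℤ => C * (1 / (m : ℝ) ^ 2)) :=
    (Real.summable_one_div_int_pow.mpr (by norm_num)).mul_left C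
  exact Summable.of_nonneg_of_le (fun m => by positivity) hC h2

theorem pk_summable' (η : ℝ) : Summable (fun m : ℤ => ‖pk η m‖) := by
  have h := pk_summable η
  have h2 : Summable (fun m : ℤ => |(m : ℝ)| * ‖pk η m‖ + (if m = 0 then ‖pk η 0‖ else 0)) := by
    apply h.add
    exact (hasSum_ite_eq (0 : ℤ) ‖pk η 0‖).summable
  refine Summable.of_nonneg_of_le (fun m => norm_nonneg _) (fun m => ?_) h2
  by_cases hm : m = 0
  · subst hm; simp
  · have : (1 : ℝ) ≤ |(m : ℝ)| := by
      have := Int.one_le_abs hm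
      exact_mod_cast this
    simp only [hm, if_false, add_zero]
    nlinarith [norm_nonneg (pk η m)]

section Abstract

variable {V : Type*} [NormedAddCommGroup V] [NormedSpace ℂ V] [CompleteSpace V]

/-- partial sums over integer intervals -/
noncomputable def SV (T : ℤ → V → V) (m : ℤ) (v : V) : V :=
  (∑ i ∈ Finset.Ico 0 m, T i v) - ∑ i ∈ Finset.Ico m 0, T i v

omit [CompleteSpace V] [NormedSpace ℂ V] in
theorem SV_succ (T : ℤ → V → V) (m : ℤ) (v : V) : SV T (m + 1) v = SV T m v + T m v := by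
  unfold SV
  rcases le_or_gt 0 m with h | h
  · have e1 : Finset.Ico (m + 1) 0 = ∅ := Finset.Ico_eq_empty (by omega)
    have e2 : Finset.Ico m 0 = ∅ := Finset.Ico_eq_empty (by omega)
    have e3 : Finset.Ico 0 (m + 1) = insert m (Finset.Ico 0 m) := by
      ext x; simp only [Finset.mem_Ico, Finset.mem_insert]; omega
    rw [e1, e2, e3, Finset.sum_insert (by simp)]
    simp [add_comm]
  · have e1 : Finset.Ico 0 (m + 1) = ∅ := Finset.Ico_eq_empty (by omega)
    have e2 : Finset.Ico 0 m = ∅ := Finset.Ico_eq_empty (by omega)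
    have e3 : Finset.Ico m 0 = insert m (Finset.Ico (m + 1) 0) := by
      ext x; simp only [Finset.mem_Ico, Finset.mem_insert]; omega
    rw [e1, e2, e3, Finset.sum_insert (by simp)]
    simp

omit [CompleteSpace V] in
theorem SV_tel (T : ℤ → V →ₗ[ℂ] V) (h0 : ∀ v, T 0 v = v)
    (hadd : ∀ m n v, T (m + n) v = T m (T n v)) (m : ℤ) (v : V) :
    SV (fun i => T i) m v - T 1 (SV (fun i => T i) m v) = v - T m v := by
  induction m using Int.induction_on with
  | zero => simp [SV, h0]
  | succ i ih =>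
    rw [SV_succ, map_add, add_comm (i : ℤ) 1, hadd 1 (i : ℤ) v]
    have : SV (fun i => T i) (i : ℤ) v + T i v - (T 1 (SV (fun i => T i) (i : ℤ) v) + T 1 (T i v))
      = (SV (fun i => T i) (i : ℤ) v - T 1 (SV (fun i => T i) (i : ℤ) v))
        + (T i v - T 1 (T i v)) := by abel
    rw [this, ih]; abel
  | pred i ih =>
    have h := SV_succ (fun i => T i) (-(i : ℤ) - 1) v
    rw [sub_add_cancel] at h
    have h3 : T (-(i : ℤ)) v = T 1 (T (-(i : ℤ) - 1) v) := by
      rw [← hadd]; congr 1; ring_nf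
    rw [h, map_add, h3] at ih
    have e : ∀ x y z w : V, x + y - (z + w) = v - w → x - z = v - y := by
      intro x y z w hh
      have : x - z = (x + y - (z + w)) + w - y := by abel
      rw [this, hh]; abel
    exact e _ _ _ _ ih

omit [CompleteSpace V] [NormedSpace ℂ V] in
theorem SV_norm (T : ℤ → V → V) (hT : ∀ m v, ‖T m v‖ ≤ ‖v‖) (m : ℤ) (v : V) :
    ‖SV T m v‖ ≤ |(m : ℝ)| * ‖v‖ := by
  unfold SV
  have hb : ∀ s : Finset ℤ, ‖∑ i ∈ s, T i v‖ ≤ s.card * ‖v‖ := by
    intro s
    calc ‖∑ i ∈ s, T i v‖ ≤ ∑ i ∈ s, ‖T i v‖ := norm_sum_le _ _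
      _ ≤ ∑ i ∈ s, ‖v‖ := Finset.sum_le_sum (fun i _ => hT _ _)
      _ = s.card * ‖v‖ := by simp
  rcases le_or_gt 0 m with h | h
  · have e2 : Finset.Ico m 0 = ∅ := Finset.Ico_eq_empty (by omega)
    rw [e2, Finset.sum_empty, sub_zero]
    refine (hb _).trans ?_
    rw [Int.card_Ico, sub_zero, abs_of_nonneg (by exact_mod_cast h)]
    have : ((m.toNat : ℤ) : ℝ) = (m : ℝ) := by rw [Int.toNat_of_nonneg h]
    rw [Int.cast_natCast] at this
    rw [this]
  · have e2 : Finset.Ico 0 m = ∅ := Finset.Ico_eq_empty (by omega)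
    rw [e2, Finset.sum_empty, zero_sub, norm_neg]
    refine (hb _).trans ?_
    rw [Int.card_Ico, zero_sub, abs_of_neg (by exact_mod_cast h)]
    have : (((-m).toNat : ℤ) : ℝ) = (-m : ℝ) := by
      rw [Int.toNat_of_nonneg (by omega)]; push_cast; ring
    rw [Int.cast_natCast] at this
    rw [this]

theorem abs_AB (T : ℤ → V →ₗ[ℂ] V) (h0 : ∀ v, T 0 v = v)
    (hadd : ∀ m n v, T (m + n) v = T m (T n v)) (hT : ∀ m v, ‖T m v‖ ≤ ‖v‖)
    (p : ℤ → ℂ) (hp : Summable (fun m : ℤ => |(m : ℝ)| * ‖p m‖))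
    (hp' : Summable (fun m : ℤ => ‖p m‖)) (hp1 : HasSum p 1) :
    ∃ A B : V →L[ℂ] V, (∀ v, HasSum (fun m => p m • T m v) (A v)) ∧
      (∀ v, HasSum (fun m => p m • SV (fun i => T i) m v) (B v)) ∧
      ∀ v, v - A v = B v - T 1 (B v) := by
  have sA : ∀ v, Summable (fun m : ℤ => p m • T m v) := by
    intro v
    refine Summable.of_norm_bounded (hp'.mul_right ‖v‖) (fun m => ?_)
    rw [norm_smul]
    gcongr
    exact hT m v
  have sB : ∀ v, Summable (fun m : ℤ => p m • SV (fun i => T i) m v) := by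
    intro v
    refine Summable.of_norm_bounded (hp.mul_right ‖v‖) (fun m => ?_)
    rw [norm_smul]
    have := SV_norm (fun i => T i) hT m v
    calc ‖p m‖ * ‖SV (fun i => T i) m v‖ ≤ ‖p m‖ * (|(m : ℝ)| * ‖v‖) := by gcongr
      _ = |(m : ℝ)| * ‖p m‖ * ‖v‖ := by ring
  have SVadd : ∀ m v w, SV (fun i => T i) m (v + w)
      = SV (fun i => T i) m v + SV (fun i => T i) m w := by
    intro m v w
    simp only [SV, map_add, Finset.sum_add_distrib]
    abel
  have SVsmul : ∀ m (c : ℂ) v, SV (fun i => T i) m (c • v) = c • SV (fun i => T i) m v := by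
    intro m c v
    simp only [SV, map_smul, ← Finset.smul_sum, smul_sub]
  let A0 : V →ₗ[ℂ] V :=
    { toFun := fun v => ∑' m : ℤ, p m • T m v
      map_add' := by
        intro v w
        rw [← (sA v).tsum_add (sA w)]
        congr 1; ext m; rw [map_add, smul_add]
      map_smul' := by
        intro c v
        rw [RingHom.id_apply, ← (sA v).tsum_const_smul c]
        congr 1; ext m; rw [map_smul, smul_comm] }
  let B0 : V →ₗ[ℂ] V :=
    { toFun := fun v => ∑' m : ℤ, p m • SV (fun i => T i) m v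
      map_add' := by
        intro v w
        rw [← (sB v).tsum_add (sB w)]
        congr 1; ext m; rw [SVadd, smul_add]
      map_smul' := by
        intro c v
        rw [RingHom.id_apply, ← (sB v).tsum_const_smul c]
        congr 1; ext m; rw [SVsmul, smul_comm] }
  have nA : ∀ v, ‖A0 v‖ ≤ (∑' m : ℤ, ‖p m‖) * ‖v‖ := by
    intro v
    have h1 : ∀ m, ‖p m • T m v‖ ≤ ‖p m‖ * ‖v‖ := by
      intro m; rw [norm_smul]; gcongr; exact hT m v
    have h2 := tsum_of_norm_bounded (hp'.mul_right ‖v‖).hasSum h1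
    rw [tsum_mul_right] at h2
    exact h2
  have nB : ∀ v, ‖B0 v‖ ≤ (∑' m : ℤ, |(m : ℝ)| * ‖p m‖) * ‖v‖ := by
    intro v
    have h1 : ∀ m, ‖p m • SV (fun i => T i) m v‖ ≤ |(m : ℝ)| * ‖p m‖ * ‖v‖ := by
      intro m; rw [norm_smul]
      have := SV_norm (fun i => T i) hT m v
      calc ‖p m‖ * ‖SV (fun i => T i) m v‖ ≤ ‖p m‖ * (|(m : ℝ)| * ‖v‖) := by gcongr
        _ = |(m : ℝ)| * ‖p m‖ * ‖v‖ := by ring
    have h2 := tsum_of_norm_bounded (hp.mul_right ‖v‖).hasSum h1
    rw [tsum_mul_right] at h2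
    exact h2
  refine ⟨A0.mkContinuous _ nA, B0.mkContinuous _ nB, fun v => (sA v).hasSum,
    fun v => (sB v).hasSum, fun v => ?_⟩
  have T1c : Continuous (T 1) := by
    refine AddMonoidHomClass.continuous_of_bound (T 1) 1 (fun x => ?_)
    rw [one_mul]; exact hT 1 x
  have hs1 : HasSum (fun m : ℤ => p m • SV (fun i => T i) m v
      - T 1 (p m • SV (fun i => T i) m v)) (B0 v - T 1 (B0 v)) :=
    (sB v).hasSum.sub ((sB v).hasSum.map (T 1) T1c)
  have hs2 : HasSum (fun m : ℤ => p m • v - p m • T m v) ((1 : ℂ) • v - A0 v) :=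
    (hp1.smul_const v).sub (sA v).hasSum
  rw [one_smul] at hs2
  refine hs2.unique ?_
  have : (fun m : ℤ => p m • v - p m • T m v) = (fun m : ℤ => p m • SV (fun i => T i) m v
      - T 1 (p m • SV (fun i => T i) m v)) := by
    ext1 m
    rw [map_smul, ← smul_sub, ← smul_sub, SV_tel T h0 hadd]
  rw [this]
  exact hs1

end Abstract


open MeasureTheory AddCircle

/-- The space of continuous functions whose Fourier coefficients vanish outside E. -/
def CE (E : Set ℤ) : Submodule ℂ C(UnitAddCircle, ℂ) where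
  carrier := {f | ∀ k : ℤ, k ∉ E → fourierCoeff f k = 0}
  add_mem' := by
    intro f g hf hg k hk
    have h : fourierCoeff (⇑(f + g)) k = fourierCoeff f k + fourierCoeff g k := by
      have := fourierCoeff.add (f := ⇑f) (g := ⇑g)
        (f.continuous.integrable_of_hasCompactSupport (HasCompactSupport.of_compactSpace f))
        (g.continuous.integrable_of_hasCompactSupport (HasCompactSupport.of_compactSpace g))
      rw [ContinuousMap.coe_add, this]; rfl
    rw [h, hf k hk, hg k hk, add_zero]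
  zero_mem' := by
    intro k _
    simp [fourierCoeff]
  smul_mem' := by
    intro c f hf k hk
    have h : fourierCoeff (⇑(c • f)) k = c • fourierCoeff f k := by
      rw [ContinuousMap.coe_smul]; exact fourierCoeff.const_smul _ _ _
    rw [h, hf k hk, smul_zero]

theorem mem_CE {E : Set ℤ} {f : C(UnitAddCircle, ℂ)} :
    f ∈ CE E ↔ ∀ k : ℤ, k ∉ E → fourierCoeff f k = 0 := Iff.rfl

/-- Every translation-invariant linear form on C_E is continuous. -/
def AutomaticContinuity (E : Set ℤ) : Prop :=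
  ∀ Φ : CE E →ₗ[ℂ] ℂ,
    (∀ (f g : CE E) (a : UnitAddCircle),
      (∀ t, (g : C(UnitAddCircle, ℂ)) t = (f : C(UnitAddCircle, ℂ)) (t - a)) → Φ g = Φ f) →
    Continuous Φ

/-- Every f in C_E has an absolutely convergent Fourier series. -/
def IsSidon (E : Set ℤ) : Prop :=
  ∀ f ∈ CE E, Summable (fun k : ℤ => ‖fourierCoeff f k‖)

/-- Basic neighbourhood of 0 for the Bohr topology. -/
def BohrSet (A : Finset UnitAddCircle) (δ : ℝ) : Set ℤ := {k | ∀ a ∈ A, ‖k • a‖ < δ}

/-- the coefficient functional -/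
noncomputable def fcL (k : ℤ) : C(UnitAddCircle, ℂ) →L[ℂ] ℂ :=
  LinearMap.mkContinuous
    { toFun := fun f => fourierCoeff f k
      map_add' := by
        intro f g
        have := fourierCoeff.add (f := ⇑f) (g := ⇑g)
          (f.continuous.integrable_of_hasCompactSupport (HasCompactSupport.of_compactSpace f))
          (g.continuous.integrable_of_hasCompactSupport (HasCompactSupport.of_compactSpace g))
        rw [ContinuousMap.coe_add, this]; rfl
      map_smul' := by
        intro c f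
        rw [ContinuousMap.coe_smul]; exact fourierCoeff.const_smul _ _ _ } 1 (by
    intro f
    rw [one_mul]
    show ‖fourierCoeff f k‖ ≤ ‖f‖
    unfold fourierCoeff
    have h : ∀ t : UnitAddCircle, ‖(fourier (-k) t : ℂ) • f t‖ ≤ ‖f‖ := by
      intro t
      rw [norm_smul]
      have h1 : ‖(fourier (-k) t : ℂ)‖ = 1 := by rw [fourier_apply]; exact Circle.norm_coe _
      rw [h1, one_mul]
      exact f.norm_coe_le_norm t
    have := norm_integral_le_of_norm_le_const (μ := haarAddCircle) (Filter.Eventually.of_forall h)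
    simpa using this)

theorem fcL_apply (k : ℤ) (f : C(UnitAddCircle, ℂ)) : fcL k f = fourierCoeff f k := rfl

/-- translation operator -/
noncomputable def trL (a : UnitAddCircle) : C(UnitAddCircle, ℂ) →L[ℂ] C(UnitAddCircle, ℂ) :=
  LinearMap.mkContinuous
    { toFun := fun f => ⟨fun t => f (t - a), by fun_prop⟩
      map_add' := by intro f g; ext t; rfl
      map_smul' := by intro c f; ext t; rfl } 1 (by
    intro f
    rw [one_mul]
    rw [ContinuousMap.norm_le _ (norm_nonneg _)]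
    intro t
    exact f.norm_coe_le_norm _)

theorem trL_apply (a : UnitAddCircle) (f : C(UnitAddCircle, ℂ)) (t : UnitAddCircle) :
    trL a f t = f (t - a) := rfl

theorem trL_norm (a : UnitAddCircle) (f : C(UnitAddCircle, ℂ)) : ‖trL a f‖ ≤ ‖f‖ := by
  rw [ContinuousMap.norm_le _ (norm_nonneg _)]
  intro t
  exact f.norm_coe_le_norm _

theorem trL_zero (f : C(UnitAddCircle, ℂ)) : trL 0 f = f := by
  ext t; simp [trL_apply]

theorem trL_add (a b : UnitAddCircle) (f : C(UnitAddCircle, ℂ)) :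
    trL (a + b) f = trL a (trL b f) := by
  ext t
  show f (t - (a + b)) = f (t - a - b)
  congr 1; abel

theorem trL_comm (a b : UnitAddCircle) (f : C(UnitAddCircle, ℂ)) :
    trL a (trL b f) = trL b (trL a f) := by
  rw [← trL_add, ← trL_add, add_comm]

theorem fc_trL (a : UnitAddCircle) (f : C(UnitAddCircle, ℂ)) (k : ℤ) :
    fourierCoeff (trL a f) k = fourier (-k) a * fourierCoeff f k := by
  unfold fourierCoeff
  have h1 : ∀ t : UnitAddCircle, (fourier (-k) t : ℂ) • (trL a f) t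
      = (fun s => (fourier (-k) (s + a) : ℂ) • f s) (t - a) := by
    intro t
    simp only [sub_add_cancel]
    rfl
  simp_rw [h1]
  rw [integral_sub_right_eq_self (fun s => (fourier (-k) (s + a) : ℂ) • f s) a,
    ← integral_const_mul]
  congr 1
  ext s
  rw [fourier_arg_add]
  simp only [smul_eq_mul]
  ring

/-- The localising operator A and the correcting operator B. -/
theorem exists_AB (a : UnitAddCircle) (δ : ℝ) (hδ : 0 < δ) :
    ∃ A B : C(UnitAddCircle, ℂ) →L[ℂ] C(UnitAddCircle, ℂ),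
      (∀ f, f - A f = B f - trL a (B f)) ∧
      (∀ (f : C(UnitAddCircle, ℂ)) (k : ℤ), fourierCoeff f k = 0 → fourierCoeff (A f) k = 0) ∧
      (∀ (f : C(UnitAddCircle, ℂ)) (k : ℤ), δ ≤ ‖k • a‖ → fourierCoeff (A f) k = 0) ∧
      (∀ (f : C(UnitAddCircle, ℂ)) (k : ℤ), fourierCoeff f k = 0 → fourierCoeff (B f) k = 0) ∧
      (∀ b f, A (trL b f) = trL b (A f)) := by
  set η : ℝ := min (δ / 2) (1 / 8) with hη
  have h0 : 0 < η := lt_min (by linarith) (by norm_num)
  have h1 : η ≤ 1 / 8 := min_le_right _ _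
  have h2 : 2 * η ≤ δ := by
    have := min_le_left (δ / 2) (1 / 8 : ℝ)
    linarith
  let T : ℤ → C(UnitAddCircle, ℂ) →ₗ[ℂ] C(UnitAddCircle, ℂ) := fun m => (trL (m • a)).toLinearMap
  have Tapp : ∀ m f, T m f = trL (m • a) f := fun m f => rfl
  obtain ⟨A, B, HA, HB, HAB⟩ := abs_AB T (fun f => by rw [Tapp, zero_smul, trL_zero])
    (fun m n f => by rw [Tapp, Tapp, Tapp, add_smul, trL_add])
    (fun m f => trL_norm _ _) (pk η) (pk_summable η) (pk_summable' η) (pk_one η h0 h1)
  have evA : ∀ (k : ℤ) (f : C(UnitAddCircle, ℂ)),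
      HasSum (fun m : ℤ => pk η m * (fourier (-k) (m • a) * fourierCoeff f k))
      (fourierCoeff (A f) k) := by
    intro k f
    have h := (fcL k).hasSum (HA f)
    refine HasSum.congr_val (fun m => ?_) rfl h
    show _ = fcL k (pk η m • trL (m • a) f)
    rw [ContinuousLinearMap.map_smul, fcL_apply, fc_trL, smul_eq_mul]
  refine ⟨A, B, ?_, ?_, ?_, ?_, ?_⟩
  · intro f
    have := HAB f
    rw [Tapp, one_smul] at this
    exact this
  · intro f k hf
    have h := evA k f
    simp only [hf, mul_zero] at h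
    exact h.unique hasSum_zero
  · intro f k hk
    have h := evA k f
    have hk2 : 2 * η ≤ ‖-(k • a)‖ := by rw [norm_neg]; linarith
    have hz := (pk_zero η h0 h1 (-(k • a)) hk2).mul_right (fourierCoeff f k)
    rw [zero_mul] at hz
    refine h.unique ?_
    refine HasSum.congr_val (fun m => ?_) rfl hz
    have : (fourier (-k) (m • a) : ℂ) = fourier m (-(k • a)) := by
      rw [fourier_apply, fourier_apply]
      congr 2
      rw [smul_smul, smul_neg, smul_smul, neg_mul, neg_smul, mul_comm]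
    rw [this]; ring
  · intro f k hf
    have h := (fcL k).hasSum (HB f)
    have h' : HasSum (fun m : ℤ => (0 : ℂ)) (fourierCoeff (B f) k) := by
      refine HasSum.congr_val (fun m => ?_) rfl h
      have hb : ∀ s : Finset ℤ, fcL k (∑ i ∈ s, T i f) = 0 := by
        intro s
        rw [map_sum]
        apply Finset.sum_eq_zero
        intro i _
        rw [Tapp, fcL_apply, fc_trL, hf, mul_zero]
      rw [map_smul, SV, map_sub, hb, hb, sub_zero, smul_zero]
    exact h'.unique hasSum_zero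
  · intro b f
    have hs1 := HA (trL b f)
    have hs2 := (trL b).hasSum (HA f)
    refine hs1.unique ?_
    have : (fun m : ℤ => pk η m • T m (trL b f)) = fun m : ℤ => trL b (pk η m • T m f) := by
      ext1 m
      rw [map_smul, Tapp, Tapp, trL_comm]
    rw [this]; exact hs2



theorem CE_mono {E F : Set ℤ} (h : E ⊆ F) : CE E ≤ CE F := fun _ hf k hk => hf k (fun hk' => hk (h hk'))

theorem trL_mem {E : Set ℤ} {f : C(UnitAddCircle, ℂ)} (hf : f ∈ CE E) (a : UnitAddCircle) :
    trL a f ∈ CE E := by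
  intro k hk
  rw [fc_trL, hf k hk, mul_zero]

theorem germ_one (E : Set ℤ) (a : UnitAddCircle) (δ : ℝ) (hδ : 0 < δ) :
    AutomaticContinuity E ↔ AutomaticContinuity (E ∩ {k | ‖k • a‖ < δ}) := by
  obtain ⟨A, B, hAB, hA0, hA1, hB0, hAt⟩ := exists_AB a δ hδ
  set F : Set ℤ := E ∩ {k | ‖k • a‖ < δ} with hF
  have hFE : F ⊆ E := Set.inter_subset_left
  have hAF : ∀ f ∈ CE E, A f ∈ CE F := by
    intro f hf k hk
    by_cases hkE : k ∈ E
    · have : ¬ (‖k • a‖ < δ) := fun hlt => hk ⟨hkE, hlt⟩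
      exact hA1 f k (not_lt.mp this)
    · exact hA0 f k (hf k hkE)
  have hBG : ∀ G : Set ℤ, ∀ f ∈ CE G, B f ∈ CE G := fun G f hf k hk => hB0 f k (hf k hk)
  -- the restricted operator
  let A' : CE E →L[ℂ] CE F :=
    (A.comp (CE E).subtypeL).codRestrict (CE F) (fun f => hAF _ f.2)
  have hA'coe : ∀ f : CE E, ((A' f : CE F) : C(UnitAddCircle, ℂ)) = A f := fun f => rfl
  let ι : CE F →ₗ[ℂ] CE E := Submodule.inclusion (CE_mono hFE)
  have hι : ∀ f : CE F, ((ι f : CE E) : C(UnitAddCircle, ℂ)) = f := fun f => rfl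
  have ιc : Continuous ι := by
    refine continuous_induced_rng.mpr ?_
    exact continuous_subtype_val
  -- the basic identity for an invariant form on C_G
  have basic : ∀ (G : Set ℤ) (Φ : CE G →ₗ[ℂ] ℂ), (∀ (f g : CE G) (b : UnitAddCircle),
      (∀ t, (g : C(UnitAddCircle, ℂ)) t = (f : C(UnitAddCircle, ℂ)) (t - b)) → Φ g = Φ f) →
      ∀ (f h : CE G), (h : C(UnitAddCircle, ℂ)) = A f → Φ f = Φ h := by
    intro G Φ hΦ f h hh
    let g : CE G := ⟨B f, hBG G _ f.2⟩
    let g' : CE G := ⟨trL a (B f), trL_mem g.2 a⟩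
    have h1 : Φ g' = Φ g := hΦ g g' a (fun t => rfl)
    have h2 : f - h = g - g' := by
      apply Subtype.ext
      show (f : C(UnitAddCircle, ℂ)) - (h : C(UnitAddCircle, ℂ)) = B f - trL a (B f)
      rw [hh]; exact hAB f
    have h3 : Φ f - Φ h = Φ g - Φ g' := by rw [← map_sub, ← map_sub, h2]
    rw [h1, sub_self] at h3
    exact sub_eq_zero.mp h3
  constructor
  · intro hE Ψ hΨ
    let Φ : CE E →ₗ[ℂ] ℂ := Ψ.comp A'.toLinearMap
    have hΦ : Continuous Φ := by
      apply hE
      intro f g b hfg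
      apply hΨ (A' f) (A' g) b
      intro t
      rw [hA'coe, hA'coe]
      have : (g : C(UnitAddCircle, ℂ)) = trL b f := by ext s; exact hfg s
      rw [this, hAt]; rfl
    have hcomp : (Ψ : CE F → ℂ) = Φ ∘ ι := by
      ext f
      show Ψ f = Ψ (A' (ι f))
      exact basic F Ψ hΨ f (A' (ι f)) rfl
    rw [hcomp]
    exact hΦ.comp ιc
  · intro hFc Φ hΦ
    let Ψ : CE F →ₗ[ℂ] ℂ := Φ.comp ι
    have hΨ : Continuous Ψ := by
      apply hFc
      intro f g b hfg
      exact hΦ (ι f) (ι g) b hfg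
    have hcomp : (Φ : CE E → ℂ) = Ψ ∘ A' := by
      ext f
      show Φ f = Φ (ι (A' f))
      exact basic E Φ hΦ f (ι (A' f)) rfl
    rw [hcomp]
    exact hΨ.comp A'.continuous

/-- The property only depends on the germ of E at 0 in the Bohr topology. -/
theorem germ (E : Set ℤ) (S : Finset UnitAddCircle) (δ : ℝ) (hδ : 0 < δ) :
    AutomaticContinuity E ↔ AutomaticContinuity (E ∩ BohrSet S δ) := by
  classical
  induction S using Finset.induction_on with
  | empty =>
    have : E ∩ BohrSet ∅ δ = E := by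
      ext k; simp [BohrSet]
    rw [this]
  | insert a S ha ih =>
    rw [ih, germ_one (E ∩ BohrSet S δ) a δ hδ]
    have : E ∩ BohrSet S δ ∩ {k | ‖k • a‖ < δ} = E ∩ BohrSet (insert a S) δ := by
      ext k
      simp only [BohrSet, Set.mem_inter_iff, Set.mem_ofPred_eq, Finset.mem_insert,
        forall_eq_or_imp]
      tauto
    rw [this]



open scoped ENNReal

theorem one_sub_toCircle (u : UnitAddCircle) : 4 * ‖u‖ ≤ ‖(1 : ℂ) - toCircle u‖ := by
  induction u using QuotientAddGroup.induction_on with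
  | H y0 =>
    set y : ℝ := y0 - round y0 with hy
    have hyc : ((y0 : ℝ) : UnitAddCircle) = (y : UnitAddCircle) := by
      rw [hy, AddCircle.coe_sub]
      have : (((round y0 : ℤ) : ℝ) : UnitAddCircle) = 0 := by
        have h := AddCircle.coe_eq_zero_iff (1 : ℝ) (x := ((round y0 : ℤ) : ℝ))
        rw [h]; exact ⟨round y0, by simp⟩
      rw [this, sub_zero]
    have hn : ‖((y0 : ℝ) : UnitAddCircle)‖ = |y| := UnitAddCircle.norm_eq
    have hy2 : |y| ≤ 1 / 2 := abs_sub_round y0
    have e1 : (toCircle ((y0 : ℝ) : UnitAddCircle) : ℂ) = cexp (I * ((2 * π * y : ℝ) : ℂ)) := by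
      rw [hyc, toCircle_apply_mk]
      rw [Circle.coe_exp]
      push_cast
      congr 1
      ring
    show 4 * ‖((y0 : ℝ) : UnitAddCircle)‖ ≤ ‖(1 : ℂ) - toCircle ((y0 : ℝ) : UnitAddCircle)‖
    rw [e1, norm_sub_rev, Complex.norm_exp_I_mul_ofReal_sub_one, hn]
    have e2 : (2 * π * y) / 2 = π * y := by ring
    rw [e2, Real.norm_eq_abs, abs_mul, abs_two]
    have h3 : |Real.sin (π * y)| = Real.sin (π * |y|) := by
      rcases le_or_gt 0 y with h | h
      · rw [abs_of_nonneg h, abs_of_nonneg]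
        apply Real.sin_nonneg_of_nonneg_of_le_pi (by positivity)
        have := abs_le.mp hy2
        nlinarith [Real.pi_pos]
      · rw [abs_of_neg h, mul_neg, Real.sin_neg, abs_of_nonpos]
        have h4 : 0 ≤ Real.sin (π * (-y)) := by
          apply Real.sin_nonneg_of_nonneg_of_le_pi
          · have := Real.pi_pos; nlinarith
          · have := abs_le.mp hy2
            nlinarith [Real.pi_pos]
        rw [mul_neg, Real.sin_neg] at h4
        linarith
    rw [h3]
    have h4 := Real.mul_le_sin (x := π * |y|) (by positivity) (by nlinarith [Real.pi_pos])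
    have h5 : 2 / π * (π * |y|) = 2 * |y| := by
      have := Real.pi_pos.ne'
      field_simp
    rw [h5] at h4
    linarith

theorem norm_le_one (x : UnitAddCircle) : ‖x‖ ≤ 1 := by
  have := AddCircle.norm_le_half_period (p := (1 : ℝ)) (x := x) one_ne_zero
  rw [abs_one] at this
  linarith

/-- a weight comparable to the inverse square root of the distance to 0 -/
noncomputable def W (x : UnitAddCircle) : ℝ≥0∞ :=
  ∑' j : ℕ, (Metric.closedBall (0 : UnitAddCircle) ((1 / 4 : ℝ) ^ j)).indicator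
    (fun _ => (2 : ℝ≥0∞) ^ j) x

theorem W_meas : Measurable W := by
  apply Measurable.tsum
  intro j
  exact measurable_const.indicator Metric.isClosed_closedBall.measurableSet

theorem W_int : ∫⁻ x, W x ≤ 4 := by
  unfold W
  rw [lintegral_tsum (fun j => (measurable_const.indicator
    Metric.isClosed_closedBall.measurableSet).aemeasurable)]
  have h : ∀ j : ℕ, ∫⁻ x, (Metric.closedBall (0 : UnitAddCircle) ((1 / 4 : ℝ) ^ j)).indicator
      (fun _ => (2 : ℝ≥0∞) ^ j) x ≤ 2 * (2⁻¹ : ℝ≥0∞) ^ j := by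
    intro j
    rw [lintegral_indicator Metric.isClosed_closedBall.measurableSet, setLIntegral_const,
      AddCircle.volume_closedBall]
    calc (2 : ℝ≥0∞) ^ j * ENNReal.ofReal (min 1 (2 * (1 / 4) ^ j))
        ≤ (2 : ℝ≥0∞) ^ j * ENNReal.ofReal (2 * (1 / 4) ^ j) := by
          gcongr; exact min_le_right _ _
      _ = ENNReal.ofReal (2 ^ j) * ENNReal.ofReal (2 * (1 / 4) ^ j) := by
          rw [ENNReal.ofReal_pow (by norm_num)]; simp
      _ = ENNReal.ofReal (2 * (1 / 2) ^ j) := by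
          rw [← ENNReal.ofReal_mul (by positivity)]
          congr 1
          rw [mul_left_comm, ← mul_pow]; norm_num
      _ = 2 * (2⁻¹ : ℝ≥0∞) ^ j := by
          rw [ENNReal.ofReal_mul (by norm_num), ENNReal.ofReal_pow (by norm_num)]
          congr 1
          · simp
          · congr 1
            rw [one_div, ENNReal.ofReal_inv_of_pos (by norm_num)]; simp
  refine (ENNReal.tsum_le_tsum h).trans (le_of_eq ?_)
  calc ∑' j : ℕ, 2 * (2⁻¹ : ℝ≥0∞) ^ j
      = 2 * (1 - 2⁻¹)⁻¹ := by rw [ENNReal.tsum_mul_left, ENNReal.tsum_geometric]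
    _ = 4 := by
      rw [ENNReal.one_sub_inv_two, inv_inv]; norm_num

theorem W_ge_one (x : UnitAddCircle) : 1 ≤ W x := by
  have h : (Metric.closedBall (0 : UnitAddCircle) ((1 / 4 : ℝ) ^ 0)).indicator
    (fun _ => (2 : ℝ≥0∞) ^ 0) x ≤ W x := ENNReal.le_tsum 0
  rw [Set.indicator_of_mem] at h
  · simpa using h
  · simpa using norm_le_one x

theorem W_zero : W 0 = ∞ := by
  unfold W
  have : ∀ j : ℕ, (1 : ℝ≥0∞) ≤
      (Metric.closedBall (0 : UnitAddCircle) ((1 / 4 : ℝ) ^ j)).indicator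
    (fun _ => (2 : ℝ≥0∞) ^ j) 0 := by
    intro j
    rw [Set.indicator_of_mem (Metric.mem_closedBall_self (by positivity))]
    exact one_le_pow₀ (by norm_num)
  have h2 := ENNReal.tsum_le_tsum this
  rw [ENNReal.tsum_const_eq_top_of_ne_zero one_ne_zero] at h2
  exact top_le_iff.mp h2

theorem W_lower (x : UnitAddCircle) (hx : x ≠ 0) (hW : W x ≠ ∞) :
    1 / Real.sqrt ‖x‖ ≤ 2 * (W x).toReal := by
  have hx0 : 0 < ‖x‖ := norm_pos_iff.mpr hx
  obtain ⟨j, h1, h2⟩ := exists_nat_pow_near_of_lt_one hx0 (norm_le_one x)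
    (y := (1 / 4 : ℝ)) (by norm_num) (by norm_num)
  have h3 : (2 : ℝ≥0∞) ^ j ≤ W x := by
    have h : (Metric.closedBall (0 : UnitAddCircle) ((1 / 4 : ℝ) ^ j)).indicator
      (fun _ => (2 : ℝ≥0∞) ^ j) x ≤ W x := ENNReal.le_tsum j
    rw [Set.indicator_of_mem] at h
    · exact h
    · simpa using h2
  have h4 : (2 : ℝ) ^ j ≤ (W x).toReal := by
    have := ENNReal.toReal_mono hW h3
    simpa using this
  have h5 : (1 / 2 : ℝ) ^ (j + 1) < Real.sqrt ‖x‖ := by
    apply Real.lt_sqrt_of_sq_lt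
    rw [← pow_mul, mul_comm, pow_mul]
    norm_num at h1 ⊢
    exact h1
  calc 1 / Real.sqrt ‖x‖ ≤ 1 / (1 / 2 : ℝ) ^ (j + 1) :=
        one_div_le_one_div_of_le (by positivity) h5.le
    _ = 2 * 2 ^ j := by
        rw [one_div_pow, one_div_one_div, pow_succ]; ring
    _ ≤ 2 * (W x).toReal := by gcongr

theorem choose_one (c : ℤ → ℝ≥0∞) (hc : ∑' k, c k ≠ ∞) (h0 : c 0 = 0) :
    ∃ a : UnitAddCircle, ∑' k : ℤ, c k * W (k • a) ≠ ∞ := by
  have hm : ∀ k : ℤ, Measurable (fun a : UnitAddCircle => c k * W (k • a)) := by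
    intro k
    exact (W_meas.comp (measurable_const_smul k)).const_mul _
  have hint : ∫⁻ a : UnitAddCircle, ∑' k : ℤ, c k * W (k • a) ≠ ∞ := by
    rw [lintegral_tsum (fun k => (hm k).aemeasurable)]
    have : ∀ k : ℤ, ∫⁻ a : UnitAddCircle, c k * W (k • a) ≤ c k * 4 := by
      intro k
      by_cases hk : k = 0
      · subst hk; simp [h0]
      have hmk : Measurable (fun a : UnitAddCircle => W (k • a)) :=
        W_meas.comp (measurable_const_smul k)
      rw [lintegral_const_mul _ hmk]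
      gcongr
      have mp := Measure.measurePreserving_zsmul (volume : Measure UnitAddCircle) hk
      rw [mp.lintegral_comp W_meas]
      exact W_int
    have h2 := ENNReal.tsum_le_tsum this
    rw [ENNReal.tsum_mul_right] at h2
    exact ne_top_of_le_ne_top (ENNReal.mul_ne_top hc (by norm_num)) h2
  have hae := ae_lt_top (Measurable.tsum hm) hint
  obtain ⟨a, ha⟩ := hae.exists
  exact ⟨a, ha.ne⟩

theorem trL_fourier (a : UnitAddCircle) (k : ℤ) :
    trL a (fourier k : C(UnitAddCircle, ℂ)) = fourier (-k) a • (fourier k : C(UnitAddCircle, ℂ)) := by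
  ext t
  show fourier k (t - a) = fourier (-k) a * fourier k t
  rw [sub_eq_add_neg, fourier_arg_add, mul_comm]
  congr 1
  rw [fourier_apply, fourier_apply, smul_neg, neg_smul]

/-- A function with absolutely convergent Fourier series and mean zero is a sum of two
differences, inside the same C_E. -/
theorem two_differences (f : C(UnitAddCircle, ℂ)) (hs : Summable (fun k : ℤ => ‖fourierCoeff f k‖))
    (h0 : fourierCoeff f 0 = 0) :
    ∃ (a b : UnitAddCircle) (g h : C(UnitAddCircle, ℂ)),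
      (∀ k, fourierCoeff f k = 0 → fourierCoeff g k = 0) ∧
      (∀ k, fourierCoeff f k = 0 → fourierCoeff h k = 0) ∧
      f = (g - trL a g) + (h - trL b h) := by
  set c : ℤ → ℂ := fourierCoeff f with hc
  -- choose a and b
  have hc1 : ∑' k, ENNReal.ofReal ‖c k‖ ≠ ∞ := hs.tsum_ofReal_ne_top
  obtain ⟨a, ha⟩ := choose_one (fun k => ENNReal.ofReal ‖c k‖) hc1 (by simp [h0])
  obtain ⟨b, hb⟩ := choose_one (fun k => ENNReal.ofReal ‖c k‖ * W (k • a)) ha (by simp [h0])
  have hfin : ∀ k, c k ≠ 0 → W (k • a) ≠ ∞ ∧ W (k • b) ≠ ∞ := by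
    intro k hk
    have hk' : ENNReal.ofReal ‖c k‖ ≠ 0 := by
      rw [Ne, ENNReal.ofReal_eq_zero, not_le]; exact norm_pos_iff.mpr hk
    have h1 : ENNReal.ofReal ‖c k‖ * W (k • a) ≠ ∞ := ENNReal.ne_top_of_tsum_ne_top ha k
    have h2 : ENNReal.ofReal ‖c k‖ * W (k • a) * W (k • b) ≠ ∞ :=
      ENNReal.ne_top_of_tsum_ne_top hb k
    constructor
    · intro h; rw [h, ENNReal.mul_top hk'] at h1; exact h1 rfl
    · intro h
      have h3 : ENNReal.ofReal ‖c k‖ * W (k • a) ≠ 0 := by
        apply mul_ne_zero hk'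
        exact (lt_of_lt_of_le one_pos (W_ge_one _)).ne'
      rw [h, ENNReal.mul_top h3] at h2; exact h2 rfl
  have hne : ∀ k, c k ≠ 0 → k • a ≠ 0 ∧ k • b ≠ 0 := by
    intro k hk
    obtain ⟨h1, h2⟩ := hfin k hk
    exact ⟨fun h => h1 (by rw [h]; exact W_zero), fun h => h2 (by rw [h]; exact W_zero)⟩
  set S : ℤ → ℝ := fun k => (ENNReal.ofReal ‖c k‖ * W (k • a) * W (k • b)).toReal with hS
  have hSs : Summable S := ENNReal.summable_toReal hb
  have hSn : ∀ k, 0 ≤ S k := fun k => ENNReal.toReal_nonneg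
  have key : ∀ k, c k ≠ 0 → ‖c k‖ * (1 / Real.sqrt ‖k • a‖ * (1 / Real.sqrt ‖k • b‖)) ≤ 4 * S k := by
    intro k hk
    obtain ⟨h1, h2⟩ := hfin k hk
    obtain ⟨h3, h4⟩ := hne k hk
    have e1 := W_lower _ h3 h1
    have e2 := W_lower _ h4 h2
    have e3 : S k = ‖c k‖ * (W (k • a)).toReal * (W (k • b)).toReal := by
      rw [hS]; simp only [ENNReal.toReal_mul]
      rw [ENNReal.toReal_ofReal (norm_nonneg _)]
    rw [e3]
    calc ‖c k‖ * (1 / Real.sqrt ‖k • a‖ * (1 / Real.sqrt ‖k • b‖))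
        ≤ ‖c k‖ * ((2 * (W (k • a)).toReal) * (2 * (W (k • b)).toReal)) := by gcongr
      _ = 4 * (‖c k‖ * (W (k • a)).toReal * (W (k • b)).toReal) := by ring
  -- the general division estimate
  have div_est : ∀ (x y : UnitAddCircle) (k : ℤ), c k ≠ 0 → k • x ≠ 0 → k • y ≠ 0 →
      ‖k • y‖ ≤ ‖k • x‖ →
      ‖c k / (1 - fourier (-k) x)‖ ≤ ‖c k‖ * (1 / Real.sqrt ‖k • x‖ * (1 / Real.sqrt ‖k • y‖)) := by
    intro x y k hk hx hy hxy
    have h1 : 4 * ‖k • x‖ ≤ ‖(1 : ℂ) - fourier (-k) x‖ := by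
      have := one_sub_toCircle (-(k • x))
      rw [norm_neg] at this
      rw [fourier_apply, neg_smul]
      exact this
    have hx0 : 0 < ‖k • x‖ := norm_pos_iff.mpr hx
    have hy0 : 0 < ‖k • y‖ := norm_pos_iff.mpr hy
    rw [norm_div, div_eq_mul_one_div]
    gcongr
    rw [one_div_mul_one_div]
    apply one_div_le_one_div_of_le (by positivity)
    calc Real.sqrt ‖k • x‖ * Real.sqrt ‖k • y‖ ≤ Real.sqrt ‖k • x‖ * Real.sqrt ‖k • x‖ := by
          gcongr
      _ = ‖k • x‖ := Real.mul_self_sqrt (norm_nonneg _)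
      _ ≤ 4 * ‖k • x‖ := by linarith
      _ ≤ _ := h1
  classical
  set d : ℤ → ℂ := fun k => if ‖k • b‖ ≤ ‖k • a‖ then c k / (1 - fourier (-k) a) else 0 with hd
  set e : ℤ → ℂ := fun k => if ‖k • b‖ ≤ ‖k • a‖ then 0 else c k / (1 - fourier (-k) b) with he
  have hdn : ∀ k, ‖d k‖ ≤ 4 * S k := by
    intro k
    by_cases hk : c k = 0
    · have : d k = 0 := by simp [hd, hk]
      rw [this, norm_zero]; have := hSn k; linarith
    obtain ⟨h3, h4⟩ := hne k hk
    simp only [hd]
    split_ifs with h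
    · exact (div_est a b k hk h3 h4 h).trans (key k hk)
    · rw [norm_zero]; have := hSn k; linarith
  have hen : ∀ k, ‖e k‖ ≤ 4 * S k := by
    intro k
    by_cases hk : c k = 0
    · have : e k = 0 := by simp [he, hk]
      rw [this, norm_zero]; have := hSn k; linarith
    obtain ⟨h3, h4⟩ := hne k hk
    simp only [he]
    split_ifs with h
    · rw [norm_zero]; have := hSn k; linarith
    · have h5 := (div_est b a k hk h4 h3 (not_le.mp h).le)
      rw [mul_comm (1 / Real.sqrt ‖k • b‖)] at h5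
      exact h5.trans (key k hk)
  have sd : Summable (fun k : ℤ => d k • (fourier k : C(UnitAddCircle, ℂ))) := by
    refine Summable.of_norm_bounded (hSs.mul_left 4) (fun k => ?_)
    rw [norm_smul, fourier_norm, mul_one]; exact hdn k
  have se : Summable (fun k : ℤ => e k • (fourier k : C(UnitAddCircle, ℂ))) := by
    refine Summable.of_norm_bounded (hSs.mul_left 4) (fun k => ?_)
    rw [norm_smul, fourier_norm, mul_one]; exact hen k
  have coef : ∀ (u : ℤ → ℂ) (g : C(UnitAddCircle, ℂ)),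
      HasSum (fun k : ℤ => u k • (fourier k : C(UnitAddCircle, ℂ))) g →
      ∀ m, fourierCoeff g m = u m := by
    intro u g hg m
    have h := (fcL m).hasSum hg
    have h2 : HasSum (fun k : ℤ => if k = m then u m else 0) (u m) := hasSum_ite_eq m (u m)
    refine h.unique ?_
    refine HasSum.congr_val (fun k => ?_) rfl h2
    rw [ContinuousLinearMap.map_smul, fcL_apply, fourierCoeff_fourier, smul_eq_mul]
    by_cases hkm : k = m
    · subst hkm; simp
    · rw [if_neg hkm, Pi.single_eq_of_ne (Ne.symm hkm), mul_zero]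
  refine ⟨a, b, ∑' k : ℤ, d k • (fourier k : C(UnitAddCircle, ℂ)),
    ∑' k : ℤ, e k • (fourier k : C(UnitAddCircle, ℂ)), ?_, ?_, ?_⟩
  · intro k hk
    rw [coef d _ sd.hasSum k]
    simp [hd, hk]
  · intro k hk
    rw [coef e _ se.hasSum k]
    simp [he, hk]
  · have hf : HasSum (fun k : ℤ => c k • (fourier k : C(UnitAddCircle, ℂ))) f :=
      hasSum_fourier_series_of_summable hs.of_norm
    have h1 := sd.hasSum.sub ((trL a).hasSum sd.hasSum)
    have h2 := se.hasSum.sub ((trL b).hasSum se.hasSum)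
    have h3 := h1.add h2
    refine hf.unique ?_
    have : (fun k : ℤ => c k • (fourier k : C(UnitAddCircle, ℂ))) = (fun k : ℤ =>
        (d k • (fourier k : C(UnitAddCircle, ℂ)) - trL a (d k • (fourier k : C(UnitAddCircle, ℂ))))
        + (e k • (fourier k : C(UnitAddCircle, ℂ))
          - trL b (e k • (fourier k : C(UnitAddCircle, ℂ))))) := by
      ext1 k
      rw [ContinuousLinearMap.map_smul, ContinuousLinearMap.map_smul, trL_fourier, trL_fourier,
        smul_smul, smul_smul]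
      suffices hck : c k = (d k - d k * fourier (-k) a) + (e k - e k * fourier (-k) b) by
        ext t
        show c k * fourier k t = (d k * fourier k t - (d k * fourier (-k) a) * fourier k t)
          + (e k * fourier k t - (e k * fourier (-k) b) * fourier k t)
        rw [hck]; ring
      by_cases hk : c k = 0
      · simp [hd, he, hk]
      obtain ⟨h3, h4⟩ := hne k hk
      have nz : ∀ x : UnitAddCircle, k • x ≠ 0 → (1 : ℂ) - fourier (-k) x ≠ 0 := by
        intro x hx hz
        have := one_sub_toCircle (-(k • x))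
        rw [norm_neg] at this
        rw [fourier_apply, neg_smul] at hz
        rw [hz, norm_zero] at this
        have hx0 : 0 < ‖k • x‖ := norm_pos_iff.mpr hx
        linarith
      simp only [hd, he]
      split_ifs with h
      · have := nz a h3
        field_simp
        ring
      · have := nz b h4
        field_simp
        ring
    rw [this]; exact h3

theorem sidon_ac (E : Set ℤ) (hE : IsSidon E) : AutomaticContinuity E := by
  intro Φ hΦ
  have key : ∀ f : CE E, fourierCoeff (f : C(UnitAddCircle, ℂ)) 0 = 0 → Φ f = 0 := by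
    intro f hf0
    obtain ⟨a, b, g, h, hg, hh, hfe⟩ := two_differences f (hE f f.2) hf0
    let g1 : CE E := ⟨g, fun k hk => hg k (f.2 k hk)⟩
    let h1 : CE E := ⟨h, fun k hk => hh k (f.2 k hk)⟩
    let g2 : CE E := ⟨trL a g, trL_mem g1.2 a⟩
    let h2 : CE E := ⟨trL b h, trL_mem h1.2 b⟩
    have e1 : Φ g2 = Φ g1 := hΦ g1 g2 a (fun t => rfl)
    have e2 : Φ h2 = Φ h1 := hΦ h1 h2 b (fun t => rfl)
    have e3 : f + (g2 + h2) = g1 + h1 := by
      apply Subtype.ext
      show (f : C(UnitAddCircle, ℂ)) + (trL a g + trL b h) = g + h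
      rw [hfe]
      abel
    have e4 := congrArg Φ e3
    rw [map_add, map_add, map_add, e1, e2] at e4
    exact add_eq_right.mp e4
  by_cases h0 : (0 : ℤ) ∈ E
  · have hone : (fourier 0 : C(UnitAddCircle, ℂ)) ∈ CE E := by
      intro k hk
      rw [fourierCoeff_fourier]
      have : k ≠ 0 := fun h => hk (h ▸ h0)
      rw [Pi.single_eq_of_ne this]
    let u : CE E := ⟨fourier 0, hone⟩
    have hu : fourierCoeff (u : C(UnitAddCircle, ℂ)) 0 = 1 := by
      show fourierCoeff (fourier 0 : C(UnitAddCircle, ℂ)) 0 = 1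
      rw [fourierCoeff_fourier]; simp
    have hform : ∀ f : CE E, Φ f = fcL 0 (f : C(UnitAddCircle, ℂ)) * Φ u := by
      intro f
      have h1 : Φ (f + (-(fcL 0 (f : C(UnitAddCircle, ℂ)))) • u) = 0 := by
        apply key
        show fcL 0 ((f : C(UnitAddCircle, ℂ)) + (-(fcL 0 (f : C(UnitAddCircle, ℂ)))) •
          (u : C(UnitAddCircle, ℂ))) = 0
        rw [map_add, ContinuousLinearMap.map_smul, fcL_apply 0 (u : C(UnitAddCircle, ℂ)), hu]
        simp
      rw [map_add, map_smul, smul_eq_mul] at h1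
      linear_combination h1
    have : (Φ : CE E → ℂ) = fun f : CE E => fcL 0 (f : C(UnitAddCircle, ℂ)) * Φ u := funext hform
    rw [this]
    exact ((fcL 0).continuous.comp continuous_subtype_val).mul continuous_const
  · have : (Φ : CE E → ℂ) = fun _ => 0 := by
      ext f
      exact key f (f.2 0 h0)
    rw [this]
    exact continuous_const



/-! ### A continuous function with odd spectrum whose Fourier series is not absolutely
convergent (Rudin-Shapiro polynomials) -/

theorem rs_exists (n : ℕ) : ∃ u v : ℕ → ℂ, (∀ k, ‖u k‖ = 1) ∧ (∀ k, ‖v k‖ = 1) ∧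
    ∀ z : ℂ, ‖z‖ = 1 →
      ‖∑ k ∈ Finset.range (2 ^ n), u k * z ^ k‖ ^ 2 +
      ‖∑ k ∈ Finset.range (2 ^ n), v k * z ^ k‖ ^ 2 = 2 ^ (n + 1) := by
  induction n with
  | zero =>
    refine ⟨fun _ => 1, fun _ => 1, by simp, by simp, fun z _ => ?_⟩
    simp
    norm_num
  | succ n ih =>
    obtain ⟨u, v, hu, hv, huv⟩ := ih
    refine ⟨fun k => if k < 2 ^ n then u k else v (k - 2 ^ n),
      fun k => if k < 2 ^ n then u k else - v (k - 2 ^ n), ?_, ?_, ?_⟩
    · intro k; simp only; split_ifs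
      · exact hu _
      · exact hv _
    · intro k; simp only; split_ifs
      · exact hu _
      · rw [norm_neg]; exact hv _
    · intro z hz
      have hsplit : ∀ w : ℕ → ℂ, ∑ k ∈ Finset.range (2 ^ (n + 1)), w k
          = ∑ k ∈ Finset.range (2 ^ n), w k + ∑ k ∈ Finset.range (2 ^ n), w (2 ^ n + k) := by
        intro w
        rw [pow_succ, mul_two, Finset.sum_range_add]
      set P := ∑ k ∈ Finset.range (2 ^ n), u k * z ^ k with hP
      set Q := ∑ k ∈ Finset.range (2 ^ n), v k * z ^ k with hQ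
      have e1 : ∑ k ∈ Finset.range (2 ^ (n + 1)),
          (if k < 2 ^ n then u k else v (k - 2 ^ n)) * z ^ k = P + z ^ (2 ^ n) * Q := by
        rw [hsplit]
        congr 1
        · apply Finset.sum_congr rfl
          intro k hk
          rw [if_pos (Finset.mem_range.mp hk)]
        · rw [hQ, Finset.mul_sum]
          apply Finset.sum_congr rfl
          intro k _
          rw [if_neg (by omega), Nat.add_sub_cancel_left, pow_add]; ring
      have e2 : ∑ k ∈ Finset.range (2 ^ (n + 1)),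
          (if k < 2 ^ n then u k else - v (k - 2 ^ n)) * z ^ k = P - z ^ (2 ^ n) * Q := by
        rw [hsplit, sub_eq_add_neg]
        congr 1
        · apply Finset.sum_congr rfl
          intro k hk
          rw [if_pos (Finset.mem_range.mp hk)]
        · rw [hQ, Finset.mul_sum, ← Finset.sum_neg_distrib]
          apply Finset.sum_congr rfl
          intro k _
          rw [if_neg (by omega), Nat.add_sub_cancel_left, pow_add]; ring
      rw [e1, e2]
      have hpar := parallelogram_law_with_norm ℝ P (z ^ (2 ^ n) * Q)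
      have hzq : ‖z ^ (2 ^ n) * Q‖ = ‖Q‖ := by rw [norm_mul, norm_pow, hz, one_pow, one_mul]
      rw [hzq] at hpar
      have h2 := huv z hz
      rw [pow_succ (2 : ℝ) (n + 1)]
      nlinarith [hpar, h2]

/-- Blocks of odd frequencies. -/
theorem odd_block (n : ℕ) : ∃ (u : ℕ → ℂ) (F : C(UnitAddCircle, ℂ)), (∀ k, ‖u k‖ = 1) ∧
    F = ∑ k ∈ Finset.range (2 ^ n),
      u k • (fourier ((2 ^ (n + 1) + 1 + 2 * k : ℕ) : ℤ) : C(UnitAddCircle, ℂ)) ∧
    ‖F‖ ^ 2 ≤ 2 ^ (n + 1) := by
  obtain ⟨u, v, hu, _, huv⟩ := rs_exists n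
  refine ⟨u, _, hu, rfl, ?_⟩
  have hb : ∀ t : UnitAddCircle, ‖(∑ k ∈ Finset.range (2 ^ n),
      u k • (fourier ((2 ^ (n + 1) + 1 + 2 * k : ℕ) : ℤ) : C(UnitAddCircle, ℂ))) t‖
      ≤ Real.sqrt (2 ^ (n + 1)) := by
    intro t
    have hn1 : ∀ m : ℤ, ‖(fourier m t : ℂ)‖ = 1 := by
      intro m; rw [fourier_apply]; exact Circle.norm_coe _
    have e : (∑ k ∈ Finset.range (2 ^ n),
      u k • (fourier ((2 ^ (n + 1) + 1 + 2 * k : ℕ) : ℤ) : C(UnitAddCircle, ℂ))) t
      = fourier ((2 ^ (n + 1) + 1 : ℕ) : ℤ) t *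
        ∑ k ∈ Finset.range (2 ^ n), u k * (fourier 2 t : ℂ) ^ k := by
      rw [ContinuousMap.coe_sum, Finset.sum_apply, Finset.mul_sum]
      apply Finset.sum_congr rfl
      intro k _
      show u k * fourier ((2 ^ (n + 1) + 1 + 2 * k : ℕ) : ℤ) t = _
      have h2 : (fourier ((2 * k : ℕ) : ℤ) t : ℂ) = (fourier 2 t : ℂ) ^ k := by
        rw [fourier_apply, fourier_apply, ← Circle.coe_pow, ← AddCircle.toCircle_nsmul]
        congr 2
        rw [← natCast_zsmul, smul_smul]
        congr 1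
        push_cast; ring
      rw [Nat.cast_add, fourier_add, h2]; ring
    rw [e, norm_mul, hn1, one_mul]
    apply Real.le_sqrt_of_sq_le
    have := huv (fourier 2 t) (hn1 2)
    have h3 : 0 ≤ ‖∑ k ∈ Finset.range (2 ^ n), v k * (fourier 2 t : ℂ) ^ k‖ ^ 2 := by positivity
    linarith
  have h2 := (ContinuousMap.norm_le _ (Real.sqrt_nonneg _)).mpr hb
  calc _ ≤ (Real.sqrt (2 ^ (n + 1))) ^ 2 := by gcongr
    _ = 2 ^ (n + 1) := Real.sq_sqrt (by positivity)

/-- The set of odd integers. -/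
def oddInts : Set ℤ := {k | Odd k}

theorem odd_not_sidon : ¬ IsSidon oddInts := by
  choose u F hu hF hFn using odd_block
  have hFn' : ∀ n, ‖F n‖ ≤ 2 * (Real.sqrt 2) ^ n := by
    intro n
    have h1 := hFn n
    have h2 : (0 : ℝ) ≤ 2 * (Real.sqrt 2) ^ n := by positivity
    refine (pow_le_pow_iff_left₀ (norm_nonneg _) h2 two_ne_zero).mp ?_
    calc ‖F n‖ ^ 2 ≤ 2 ^ (n + 1) := h1
      _ = 2 * 2 ^ n := by rw [pow_succ]; ring
      _ ≤ 4 * 2 ^ n := by
          have : (0 : ℝ) < 2 ^ n := by positivity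
          linarith
      _ = (2 * (Real.sqrt 2) ^ n) ^ 2 := by
          rw [mul_pow, ← pow_mul, mul_comm n 2, pow_mul, Real.sq_sqrt (by norm_num)]; norm_num
  have hsum : Summable (fun n : ℕ => ((1 / 2 : ℂ) ^ n) • F n) := by
    have hg : Summable (fun n : ℕ => 2 * (Real.sqrt 2 / 2) ^ n) := by
      apply Summable.mul_left
      apply summable_geometric_of_lt_one (by positivity)
      rw [div_lt_one (by norm_num)]
      rw [Real.sqrt_lt' (by norm_num)]; norm_num
    refine Summable.of_norm_bounded hg (fun n => ?_)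
    rw [norm_smul, norm_pow]
    have h12 : ‖(1 / 2 : ℂ)‖ = 1 / 2 := by norm_num
    rw [h12]
    calc (1 / 2 : ℝ) ^ n * ‖F n‖ ≤ (1 / 2 : ℝ) ^ n * (2 * (Real.sqrt 2) ^ n) := by
          gcongr; exact hFn' n
      _ = 2 * (Real.sqrt 2 / 2) ^ n := by
          rw [div_pow, div_pow, one_pow]; ring
  set f := ∑' n : ℕ, ((1 / 2 : ℂ) ^ n) • F n with hf
  -- coefficients of the blocks
  have fcF : ∀ (n : ℕ) (m : ℤ), fourierCoeff (F n) m
      = ∑ k ∈ Finset.range (2 ^ n), u n k * (if ((2 ^ (n + 1) + 1 + 2 * k : ℕ) : ℤ) = m then 1 else 0) := by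
    intro n m
    rw [← fcL_apply, hF n, map_sum]
    apply Finset.sum_congr rfl
    intro k _
    rw [ContinuousLinearMap.map_smul, fcL_apply, fourierCoeff_fourier, smul_eq_mul]
    congr 1
    by_cases h : ((2 ^ (n + 1) + 1 + 2 * k : ℕ) : ℤ) = m
    · rw [if_pos h, h]; simp
    · rw [if_neg h, Pi.single_eq_of_ne (Ne.symm h)]
  have hcoef : ∀ m : ℤ, HasSum (fun n : ℕ => (1 / 2 : ℂ) ^ n * fourierCoeff (F n) m)
      (fourierCoeff f m) := by
    intro m
    have h := (fcL m).hasSum hsum.hasSum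
    refine HasSum.congr_val (fun n => ?_) rfl h
    rw [ContinuousLinearMap.map_smul, fcL_apply, smul_eq_mul]
  intro hS
  have hfodd : f ∈ CE oddInts := by
    intro m hm
    have h := hcoef m
    refine h.unique ?_
    refine HasSum.congr_val (fun n => ?_) rfl hasSum_zero
    rw [fcF]
    rw [Finset.sum_eq_zero, mul_zero]
    intro k _
    rw [if_neg, mul_zero]
    intro he
    apply hm
    show Odd m
    rw [← he]
    refine ⟨(2 ^ n + k : ℕ), ?_⟩
    push_cast; ring
  have hsm := hS f hfodd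
  have hval : ∀ n k : ℕ, k < 2 ^ n →
      ‖fourierCoeff f ((2 ^ (n + 1) + 1 + 2 * k : ℕ) : ℤ)‖ = (1 / 2) ^ n := by
    intro n k hk
    have h := hcoef ((2 ^ (n + 1) + 1 + 2 * k : ℕ) : ℤ)
    have h2 : HasSum (fun n' : ℕ => if n' = n then (1 / 2 : ℂ) ^ n * u n k else 0)
        ((1 / 2 : ℂ) ^ n * u n k) := hasSum_ite_eq n _
    have h3 : fourierCoeff f ((2 ^ (n + 1) + 1 + 2 * k : ℕ) : ℤ) = (1 / 2 : ℂ) ^ n * u n k := by
      refine h.unique ?_
      refine HasSum.congr_val (fun n' => ?_) rfl h2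
      rw [fcF]
      by_cases hn : n' = n
      · subst hn
        rw [if_pos rfl]
        congr 1
        rw [Finset.sum_eq_single k]
        · simp
        · intro b _ hb
          rw [if_neg, mul_zero]
          intro he
          apply hb
          have : (2 ^ (n' + 1) + 1 + 2 * b : ℕ) = 2 ^ (n' + 1) + 1 + 2 * k := by exact_mod_cast he
          omega
        · intro hk'
          exact absurd (Finset.mem_range.mpr hk) hk'
      · rw [if_neg hn, Finset.sum_eq_zero, mul_zero]
        intro b hb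
        rw [if_neg, mul_zero]
        intro he
        have he' : (2 ^ (n' + 1) + 1 + 2 * b : ℕ) = 2 ^ (n + 1) + 1 + 2 * k := by
          exact_mod_cast he
        have hb' := Finset.mem_range.mp hb
        have e1 : 2 ^ (n' + 1) = 2 * 2 ^ n' := by rw [pow_succ]; ring
        have e2 : 2 ^ (n + 1) = 2 * 2 ^ n := by rw [pow_succ]; ring
        rcases lt_or_gt_of_ne hn with hlt | hgt
        · have : 2 ^ (n' + 1) ≤ 2 ^ n := Nat.pow_le_pow_right (by norm_num) hlt
          omega
        · have : 2 ^ (n + 1) ≤ 2 ^ n' := Nat.pow_le_pow_right (by norm_num) hgt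
          omega
    rw [h3, norm_mul, norm_pow, hu]
    norm_num
  -- contradiction with summability
  obtain ⟨s, hs⟩ := summable_iff_vanishing_norm.mp hsm 1 one_pos
  obtain ⟨M, hM⟩ : ∃ M : ℕ, ∀ x ∈ s, x < 2 ^ (M + 1) := by
    obtain ⟨B, hB⟩ := s.bddAbove
    refine ⟨B.toNat, fun x hx => ?_⟩
    have h1 : x ≤ B := hB hx
    have h2 : (B.toNat : ℤ) < 2 ^ (B.toNat + 1) := by
      have := Nat.lt_two_pow_self (n := B.toNat + 1)
      have h3 : ((B.toNat + 1 : ℕ) : ℤ) < ((2 ^ (B.toNat + 1) : ℕ) : ℤ) := by exact_mod_cast this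
      push_cast at h3
      linarith
    have h4 : B ≤ B.toNat := Int.self_le_toNat B
    linarith
  set blk : Finset ℤ := (Finset.range (2 ^ M)).image (fun k : ℕ => ((2 ^ (M + 1) + 1 + 2 * k : ℕ) : ℤ))
    with hblk
  have hdisj : Disjoint blk s := by
    rw [Finset.disjoint_left]
    intro x hx hxs
    obtain ⟨k, _, rfl⟩ := Finset.mem_image.mp hx
    have := hM _ hxs
    push_cast at this
    linarith [(Nat.cast_nonneg k : (0 : ℤ) ≤ k)]
  have h1 := hs blk hdisj
  have h2 : ∑ b ∈ blk, ‖fourierCoeff f b‖ = 1 := by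
    rw [hblk, Finset.sum_image]
    · rw [Finset.sum_congr rfl (fun k hk => hval M k (Finset.mem_range.mp hk))]
      rw [Finset.sum_const, Finset.card_range, nsmul_eq_mul]
      push_cast
      rw [← mul_pow]; norm_num
    · intro a _ b _ hab
      have hab' : ((2 ^ (M + 1) + 1 + 2 * a : ℕ) : ℤ) = ((2 ^ (M + 1) + 1 + 2 * b : ℕ) : ℤ) := hab
      have : (2 ^ (M + 1) + 1 + 2 * a : ℕ) = 2 ^ (M + 1) + 1 + 2 * b := by exact_mod_cast hab'
      omega
  rw [h2] at h1
  norm_num at h1

/-- The odd integers miss the Bohr neighbourhood given by the point one half. -/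
theorem odd_inter_empty : oddInts ∩ BohrSet {((1 / 2 : ℝ) : UnitAddCircle)} (1 / 2) = ∅ := by
  ext k
  simp only [Set.mem_inter_iff, Set.mem_empty_iff_false, iff_false, not_and]
  intro hk hB
  have h := hB ((1 / 2 : ℝ) : UnitAddCircle) (Finset.mem_singleton_self _)
  obtain ⟨j, rfl⟩ := hk
  have e : (2 * j + 1) • ((1 / 2 : ℝ) : UnitAddCircle) = ((1 / 2 : ℝ) : UnitAddCircle) := by
    rw [add_smul, one_smul, mul_comm, mul_smul]
    have : (2 : ℤ) • ((1 / 2 : ℝ) : UnitAddCircle) = 0 := by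
      rw [← AddCircle.coe_zsmul]
      simp
    rw [this, smul_zero, zero_add]
  rw [e, UnitAddCircle.norm_eq] at h
  have hr : round (1 / 2 : ℝ) = 1 := by
    rw [one_div]; exact round_two_inv
  rw [hr] at h
  norm_num [abs_of_nonpos] at h

theorem empty_sidon : IsSidon ∅ := by
  intro f hf
  have : (fun k : ℤ => ‖fourierCoeff f k‖) = fun _ => 0 := by
    ext k; rw [hf k (Set.notMem_empty k), norm_zero]
  rw [this]; exact summable_zero


/-- If E is Sidon near 0 for the Bohr topology, then C_E has the automatic continuity property;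
moreover the odd integers are a set of this kind that is not a Sidon set. -/
theorem result :
    (∀ (E : Set ℤ) (S : Finset UnitAddCircle) (δ : ℝ), 0 < δ →
      IsSidon (E ∩ BohrSet S δ) → AutomaticContinuity E) ∧
    ¬ IsSidon oddInts ∧ AutomaticContinuity oddInts := by
  have main : ∀ (E : Set ℤ) (S : Finset UnitAddCircle) (δ : ℝ), 0 < δ →
      IsSidon (E ∩ BohrSet S δ) → AutomaticContinuity E :=
    fun E S δ hδ h => (germ E S δ hδ).mpr (sidon_ac _ h)
  refine ⟨main, odd_not_sidon, ?_⟩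
  apply main oddInts {((1 / 2 : ℝ) : UnitAddCircle)} (1 / 2) (by norm_num)
  rw [odd_inter_empty]
  exact empty_sidon

end Pool.Agent.Results.MP_eb9c50_an.SidonNearZero
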